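import Pool.Agent.Helper45.CF.GoalsB
import Pool.Agent.Helper28.CR.TCOR
import Pool.Agent.Helper36.CR.TNEG

/-!
Packet 12467 (CF-CCO, owner helper45): constant corners.
-/

open scoped ComplexOrder ZeroAtInfty Topology ComplexConjugate
open TopologicalSpace Filter

namespace Pool.Agent.Helper46.CF

open Pool.Agent.Helper34.CAR Pool.Agent.Helper39.CR Pool.Agent.Helper39.Uct
  Pool.Agent.Helper45.CF Pool.Agent.Helper36.CR

noncomputable section

section

variable {Z S B : Type} [TopologicalSpace Z] [CompactSpace Z] [Fintype S] [DecidableEq S]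
  [CStarAlgebra B]

theorem continuous_single (i j : S) : Continuous fun b : B => (Mt.single i j b : Mt S B) :=
  AddMonoidHomClass.continuous_of_bound (mu i j : B →ₗ[ℂ] Mt S B) 1 fun x => by
    rw [one_mul]
    exact Mt.norm_single_le i j x

/-- The matrix units of `C(Z, Mt S B)` over `C(Z, B)`. -/
def cmu (i j : S) : C(Z, B) →ₗ[ℂ] C(Z, Mt S B) where
  toFun f := ⟨fun y => Mt.single i j (f y), (continuous_single i j).comp f.continuous⟩
  map_add' f g := by
    ext1 y
    exact (mu i j : B →ₗ[ℂ] Mt S B).map_add (f y) (g y)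
  map_smul' c f := by
    ext1 y
    exact (mu i j : B →ₗ[ℂ] Mt S B).map_smul c (f y)

theorem cmu_apply (i j : S) (f : C(Z, B)) (y : Z) : cmu i j f y = Mt.single i j (f y) := rfl

theorem cmunits : MUnits (cmu : S → S → C(Z, B) →ₗ[ℂ] C(Z, Mt S B)) where
  mul i j k a b := by
    ext1 y
    exact Mt.single_mul_single i j k (a y) (b y)
  mul0 i j k l a b h := by
    ext1 y
    exact Mt.single_mul_single_ne h i l (a y) (b y)
  star i j a := by
    ext1 y
    exact Mt.star_single i j (a y)
  inj i j a h := by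
    ext1 y
    refine (munits : MUnits (mu : S → S → B →ₗ[ℂ] Mt S B)).inj i j (a y) ?_
    exact DFunLike.congr_fun h y
  span x := by
    refine ⟨fun i j => ⟨fun y => x y i j, (continuous_entry i j).comp x.continuous⟩, ?_⟩
    ext1 y
    rw [ContinuousMap.sum_apply]
    simp_rw [ContinuousMap.sum_apply]
    exact Mt.eq_sum_single (x y)

/-- The corners of `C(Z, Mt S B)`. -/
def ccorn (p : S) : C(Z, B) →⋆ₙₐ[ℂ] C(Z, Mt S B) := mapC Z (cornH p)

theorem ccorn_apply (p : S) (f : C(Z, B)) : ccorn p f = cmu p p f := rfl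

/-- Constant functions. -/
def constH (Z B : Type) [TopologicalSpace Z] [CompactSpace Z] [CStarAlgebra B] :
    B →⋆ₙₐ[ℂ] C(Z, B) where
  toFun b := ContinuousMap.const Z b
  map_smul' _ _ := rfl
  map_zero' := rfl
  map_add' _ _ := rfl
  map_mul' _ _ := rfl
  map_star' _ := rfl

end

theorem t : S_CCO := by
  intro T i B S _ _ _ _ p q h h' hh hh'
  have e1 : h = (ccorn p).comp (constH Sphere2 B) := by
    refine DFunLike.ext _ _ fun b => ?_
    ext1 y
    exact hh b y
  have e2 : h' = (ccorn q).comp (constH Sphere2 B) := by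
    refine DFunLike.ext _ _ fun b => ?_
    ext1 y
    exact hh' b y
  have e3 : T.map i (ccorn p : C(Sphere2, B) →⋆ₙₐ[ℂ] C(Sphere2, Mt S B)) =
      T.map i (ccorn q : C(Sphere2, B) →⋆ₙₐ[ℂ] C(Sphere2, Mt S B)) :=
    Pool.Agent.Helper28.CR.tcor T i C(Sphere2, B) C(Sphere2, Mt S B) S cmu cmunits p q _ _
      (ccorn_apply p) (ccorn_apply q)
  refine DFunLike.ext _ _ fun x => ?_
  rw [e1, e2, T.map_comp, T.map_comp, e3]

end

end Pool.Agent.Helper46.CF
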